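import Mathlib

set_option autoImplicit false

namespace Pool.Agent.Beurl

theorem exists_al : ∃ α : ℝ, α ∈ Set.Icc (283117720720833/100000000000000 : ℝ) (283117720720834/100000000000000) ∧
    α^3 = 2*α^2+2*α+1 := by
  have hc : ContinuousOn (fun x : ℝ => x^3-2*x^2-2*x-1) (Set.Icc (283117720720833/100000000000000 : ℝ) (283117720720834/100000000000000)) := by
    fun_prop
  have := intermediate_value_Icc (by norm_num : (283117720720833/100000000000000 : ℝ) ≤ 283117720720834/100000000000000) hc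
  have h0 : (0:ℝ) ∈ Set.Icc ((fun x : ℝ => x^3-2*x^2-2*x-1) (283117720720833/100000000000000 : ℝ)) ((fun x : ℝ => x^3-2*x^2-2*x-1) (283117720720834/100000000000000)) := by
    constructor <;> norm_num
  obtain ⟨α, hα, hf⟩ := this h0
  refine ⟨α, hα, ?_⟩
  have : α^3-2*α^2-2*α-1 = 0 := hf
  linarith

noncomputable def al : ℝ := Classical.choose exists_al

theorem al_mem : al ∈ Set.Icc (283117720720833/100000000000000 : ℝ) (283117720720834/100000000000000) :=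
  (Classical.choose_spec exists_al).1

theorem al_eq : al^3 = 2*al^2+2*al+1 := (Classical.choose_spec exists_al).2

theorem al_lo : (283117720720833/100000000000000 : ℝ) ≤ al := al_mem.1
theorem al_hi : al ≤ (283117720720834/100000000000000 : ℝ) := al_mem.2

noncomputable def ss : ℝ := (2 - al) / 2
noncomputable def tt : ℝ := Real.sqrt (al^2-2*al-2-ss^2)

theorem tt_sq : tt^2 = al^2-2*al-2-ss^2 := by
  unfold tt
  rw [Real.sq_sqrt]
  unfold ss
  nlinarith [al_lo, al_hi]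

noncomputable def be : ℂ := ⟨ss, tt⟩

theorem be_eq : be^3 = 2*be^2+2*be+1 := by
  have h1 := tt_sq
  have h2 := al_eq
  have hs : ss = (2-al)/2 := rfl
  have hb : be = (ss : ℂ) + tt * Complex.I := by
    apply Complex.ext <;> simp [be]
  have hI : (Complex.I)^2 = -1 := Complex.I_sq
  have h1' : (tt:ℂ)^2 = (al:ℂ)^2-2*al-2-(ss:ℂ)^2 := by
    have := congrArg (fun x : ℝ => (x:ℂ)) h1
    push_cast at this
    exact this
  have h2' : (al:ℂ)^3 = 2*(al:ℂ)^2+2*al+1 := by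
    have := congrArg (fun x : ℝ => (x:ℂ)) h2
    push_cast at this
    exact this
  have hs' : (ss:ℂ) = (2-al)/2 := by
    have := congrArg (fun x : ℝ => (x:ℂ)) hs
    push_cast at this
    exact this
  rw [hb]
  have hI3 : Complex.I^3 = -Complex.I := by rw [pow_succ, hI]; ring
  have e1 : ((ss:ℂ) + tt * Complex.I)^3 = ss^3 + 3*ss^2*tt*Complex.I - 3*ss*tt^2 - tt^2*tt*Complex.I := by
    have : ((ss:ℂ) + tt * Complex.I)^3 = ss^3 + 3*ss^2*tt*Complex.I + 3*ss*tt^2*Complex.I^2 + tt^2*tt*Complex.I^3 := by ring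
    rw [this, hI, hI3]; ring
  have e2 : ((ss:ℂ) + tt * Complex.I)^2 = ss^2 + 2*ss*tt*Complex.I - tt^2 := by
    have : ((ss:ℂ) + tt * Complex.I)^2 = ss^2 + 2*ss*tt*Complex.I + tt^2*Complex.I^2 := by ring
    rw [this, hI]; ring
  rw [e1, e2, h1', hs']
  linear_combination (1 : ℂ) * h2'

/-- the norm form -/
def NF (u v w : ℤ) : ℤ := u^3+2*u^2*v+8*u^2*w-2*u*v^2-7*u*v*w+v^3+2*v^2*w-2*v*w^2+w^3

theorem normSq_eq (u v w : ℝ) :
    ‖(u:ℂ) + v * be + w * be^2‖^2 = (u + v*ss + w*(ss^2-tt^2))^2 + (v*tt+2*w*ss*tt)^2 := by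
  rw [← Complex.normSq_eq_norm_sq, Complex.normSq_apply]
  have hre : ((u:ℂ) + v * be + w * be^2).re = u + v*ss + w*(ss^2-tt^2) := by
    simp [be, pow_two]
  have him : ((u:ℂ) + v * be + w * be^2).im = v*tt+2*w*ss*tt := by
    simp [be, pow_two]
    ring
  rw [hre, him]
  ring

theorem norm_id (u v w : ℝ) : (u + v*al+w*al^2) * ‖(u:ℂ) + v * be + w * be^2‖^2 =
    u^3+2*u^2*v+8*u^2*w-2*u*v^2-7*u*v*w+v^3+2*v^2*w-2*v*w^2+w^3 := by
  rw [normSq_eq]
  have h1 := tt_sq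
  have h2 := al_eq
  have hs : ss = (2-al)/2 := rfl
  have e : (u + v*ss + w*(ss^2-tt^2))^2 + (v*tt+2*w*ss*tt)^2 =
     (u + v*ss + w*(ss^2-(al^2-2*al-2-ss^2)))^2 + (al^2-2*al-2-ss^2)*(v+2*w*ss)^2 := by
    have : (u + v*ss + w*(ss^2-tt^2))^2 + (v*tt+2*w*ss*tt)^2 = (u + v*ss + w*(ss^2-tt^2))^2 + tt^2*(v+2*w*ss)^2 := by ring
    rw [this, h1]
  rw [e, hs]
  linear_combination (w^3 + (-2)*v^1*w^2 + (2)*v^2*w^1 + (1)*v^3 + (-4)*u^1*w^2 + (-3)*u^1*v^1*w^1 + (-2)*al^1*w^3 + (-2)*al^2*w^3 + (1)*al^3*w^3) * h2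

theorem NF_mod3 (u v w : ℤ) (h : (3:ℤ) ∣ NF u v w) : (3:ℤ) ∣ u ∧ (3:ℤ) ∣ v ∧ (3:ℤ) ∣ w := by
  have key : ∀ a b c : ZMod 3, a^3+2*a^2*b+8*a^2*c-2*a*b^2-7*a*b*c+b^3+2*b^2*c-2*b*c^2+c^3 = 0 → a = 0 ∧ b = 0 ∧ c = 0 := by
    decide
  have h' := (ZMod.intCast_zmod_eq_zero_iff_dvd (NF u v w) 3).2 (by exact_mod_cast h)
  unfold NF at h'
  push_cast at h'
  have := key _ _ _ h'
  refine ⟨?_, ?_, ?_⟩
  · have := (ZMod.intCast_zmod_eq_zero_iff_dvd u 3).1 this.1; exact_mod_cast this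
  · have := (ZMod.intCast_zmod_eq_zero_iff_dvd v 3).1 this.2.1; exact_mod_cast this
  · have := (ZMod.intCast_zmod_eq_zero_iff_dvd w 3).1 this.2.2; exact_mod_cast this

theorem NF_zero : ∀ (n : ℕ) (u v w : ℤ), u.natAbs + v.natAbs + w.natAbs ≤ n → NF u v w = 0 → u = 0 ∧ v = 0 ∧ w = 0 := by
  intro n
  induction n using Nat.strong_induction_on with
  | _ n ih =>
    intro u v w hn h0
    obtain ⟨⟨u', hu⟩, ⟨v', hv⟩, ⟨w', hw⟩⟩ := NF_mod3 u v w (by rw [h0]; exact dvd_zero _)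
    by_cases hz : u = 0 ∧ v = 0 ∧ w = 0
    · exact hz
    · exfalso
      have h1 : NF u' v' w' = 0 := by
        have : NF u v w = 27 * NF u' v' w' := by subst hu hv hw; unfold NF; ring
        omega
      have hlt : u'.natAbs + v'.natAbs + w'.natAbs < n := by omega
      have := ih _ hlt u' v' w' le_rfl h1
      apply hz
      obtain ⟨a, b, c⟩ := this
      subst a b c
      simp at hu hv hw
      exact ⟨hu, hv, hw⟩

/-- `(x,z)` is the pair of conjugates of an element of `ℤ[α]` whose image in `ℤ[α]/(2, α-1) = 𝔽₂` is `e` -/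
def Rep (x : ℝ) (z : ℂ) (e : ZMod 2) : Prop :=
  ∃ u v w : ℤ, x = u + v*al + w*al^2 ∧ z = u + v*be+w*be^2 ∧ e = u + v + w

theorem Rep.mul {x : ℝ} {z : ℂ} {e : ZMod 2} {x' : ℝ} {z' : ℂ} {e' : ZMod 2}
    (h : Rep x z e) (h' : Rep x' z' e') : Rep (x*x') (z*z') (e*e') := by
  obtain ⟨u, v, w, hx, hz, he⟩ := h
  obtain ⟨u', v', w', hx', hz', he'⟩ := h'
  refine ⟨u*u'+(v*w'+w*v')+2*(w*w'), u*v'+v*u'+2*(v*w'+w*v')+5*(w*w'),
    u*w'+v*v'+w*u'+2*(v*w'+w*v')+6*(w*w'), ?_, ?_, ?_⟩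
  · rw [hx, hx']
    push_cast
    linear_combination ((v*w'+w*v') + (w*w')*(al + 2) : ℝ) * al_eq
  · rw [hz, hz']
    push_cast
    linear_combination ((v*w'+w*v') + (w*w')*(be + 2) : ℂ) * be_eq
  · rw [he, he']
    push_cast
    have h2 : (2 : ZMod 2) = 0 := rfl
    have h5 : (5 : ZMod 2) = 1 := rfl
    have h6 : (6 : ZMod 2) = 0 := rfl
    rw [h2, h5, h6]
    ring

theorem Rep.one : Rep 1 1 1 := ⟨1, 0, 0, by simp, by simp, by simp⟩

theorem Rep.pow {x : ℝ} {z : ℂ} {e : ZMod 2} (h : Rep x z e) (n : ℕ) : Rep (x^n) (z^n) (e^n) := by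
  induction n with
  | zero => simpa using Rep.one
  | succ n ih => rw [pow_succ, pow_succ, pow_succ]; exact ih.mul h

theorem Rep.prod {ι : Type*} (s : Finset ι) (x : ι → ℝ) (z : ι → ℂ) (e : ι → ZMod 2)
    (h : ∀ i, Rep (x i) (z i) (e i)) : Rep (∏ i ∈ s, x i) (∏ i ∈ s, z i) (∏ i ∈ s, e i) := by
  classical
  induction s using Finset.induction_on with
  | empty => simpa using Rep.one
  | insert a s ha ih => rw [Finset.prod_insert ha, Finset.prod_insert ha, Finset.prod_insert ha]; exact (h a).mul ih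

theorem Rep.key {x : ℝ} {z : ℂ} {e : ZMod 2} {x' : ℝ} {z' : ℂ} {e' : ZMod 2}
    (h : Rep x z e) (h' : Rep x' z' e') : (x = x' ∧ z = z' ∧ e = e') ∨ 1 ≤ |x - x'| * ‖z - z'‖^2 := by
  obtain ⟨u, v, w, hx, hz, he⟩ := h
  obtain ⟨u', v', w', hx', hz', he'⟩ := h'
  by_cases h0 : NF (u-u') (v-v') (w-w') = 0
  · left
    have := NF_zero _ _ _ _ le_rfl h0
    obtain ⟨a, b, c⟩ := this
    have a' : u = u' := by omega
    have b' : v = v' := by omega
    have c' : w = w' := by omega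
    subst a' b' c'
    exact ⟨hx.trans hx'.symm, hz.trans hz'.symm, he.trans he'.symm⟩
  · right
    have h1 := norm_id ((u-u' : ℤ):ℝ) ((v-v' : ℤ):ℝ) ((w-w' : ℤ):ℝ)
    have e1 : x - x' = ((u-u' : ℤ):ℝ) + ((v-v' : ℤ):ℝ)*al + ((w-w' : ℤ):ℝ)*al^2 := by
      rw [hx, hx']; push_cast; ring
    have e2 : z - z' = (((u-u' : ℤ):ℝ):ℂ) + (((v-v' : ℤ):ℝ):ℂ)*be + (((w-w' : ℤ):ℝ):ℂ)*be^2 := by
      rw [hz, hz']; push_cast; ring
    have e3 : (x - x') * ‖z - z'‖^2 = ((NF (u-u') (v-v') (w-w') : ℤ) : ℝ) := by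
      rw [e1, e2, h1]; unfold NF; push_cast; ring
    have e4 : |x - x'| * ‖z - z'‖^2 = |((NF (u-u') (v-v') (w-w') : ℤ) : ℝ)| := by
      rw [← e3, abs_mul, abs_of_nonneg (by positivity : 0 ≤ ‖z - z'‖^2)]
    rw [e4]
    have : (1:ℤ) ≤ |NF (u-u') (v-v') (w-w')| := Int.one_le_abs h0
    exact_mod_cast this

end Pool.Agent.Beurl
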