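import Mathlib
import Pool.Agent.Beurl.Fin
import Pool.Agent.Beurl.Alg

set_option autoImplicit false

namespace Pool.Agent.Beurl

noncomputable def val (t : T) : ℝ := (t.1:ℝ) + (t.2.1:ℝ) * al + (t.2.2:ℝ) * al^2

theorem lowb_le (t : T) : (lowb t : ℝ) ≤ 10000000000000000000000000000 * val t := by
  obtain ⟨u, v, w⟩ := t
  unfold lowb val
  dsimp only
  have hlo := al_lo
  have hhi := al_hi
  have hpos : 0 ≤ al := by linarith
  have h2lo : (80155643786159591441120213889/10000000000000000000000000000 : ℝ) ≤ al^2 := by
    have : (283117720720833/100000000000000 : ℝ)^2 ≤ al^2 := by gcongr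
    norm_num at this ⊢
    linarith
  have h2hi : al^2 ≤ (80155643786160157676561655556/10000000000000000000000000000 : ℝ) := by
    have : al^2 ≤ (283117720720834/100000000000000 : ℝ)^2 := by gcongr
    norm_num at this ⊢
    linarith
  have e1 : ((v * (if 0 ≤ v then 28311772072083300000000000000 else 28311772072083400000000000000) : ℤ) : ℝ) ≤ 10000000000000000000000000000 * ((v:ℝ) * al) := by
    split_ifs with h
    · have hv : (0:ℝ) ≤ v := by exact_mod_cast h
      push_cast
      nlinarith
    · have hv : (v:ℝ) ≤ 0 := by exact_mod_cast (not_le.1 h).le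
      push_cast
      nlinarith
  have e2 : ((w * (if 0 ≤ w then 80155643786159591441120213889 else 80155643786160157676561655556) : ℤ) : ℝ) ≤ 10000000000000000000000000000 * ((w:ℝ) * al^2) := by
    split_ifs with h
    · have hv : (0:ℝ) ≤ w := by exact_mod_cast h
      push_cast
      nlinarith
    · have hv : (w:ℝ) ≤ 0 := by exact_mod_cast (not_le.1 h).le
      push_cast
      nlinarith
  have e3 : ((u * 10000000000000000000000000000 : ℤ) : ℝ) = 10000000000000000000000000000 * (u:ℝ) := by
    push_cast; ring
  rw [Int.cast_add, Int.cast_add, e3]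
  linarith

theorem gapOK_sound (s t : T) (h : gapOK s t = true) : val s + 1 ≤ val t := by
  unfold gapOK at h
  simp only [Bool.or_eq_true, Bool.and_eq_true, decide_eq_true_eq] at h
  rcases h with ⟨⟨h1, h2⟩, h3⟩ | h
  · unfold val
    have h1' : (t.1:ℝ) = s.1 + 1 := by
      have : t.1 = s.1 + 1 := by omega
      exact_mod_cast this
    rw [h1', h2, h3]
    linarith
  · have := lowb_le (t.1 - s.1, t.2.1 - s.2.1, t.2.2 - s.2.2)
    have h' : (10000000000000000000000000000 : ℝ) ≤ (lowb (t.1 - s.1, t.2.1 - s.2.1, t.2.2 - s.2.2) : ℝ) := by exact_mod_cast h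
    have e : val (t.1 - s.1, t.2.1 - s.2.1, t.2.2 - s.2.2) = val t - val s := by
      unfold val; push_cast; ring
    rw [e] at this
    nlinarith

theorem big_sound (t : T) (h : big t = true) : 1200000000 ≤ val t := by
  unfold big at h
  rw [decide_eq_true_eq] at h
  have := lowb_le t
  have h' : (12000000000000000000000000000000000000 : ℝ) ≤ (lowb t : ℝ) := by exact_mod_cast h
  nlinarith

theorem chain_pairwise : ∀ l : List T, chain l = true → l.Pairwise (fun s t => val s + 1 ≤ val t) := by
  intro l
  induction l with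
  | nil => intro _; exact List.Pairwise.nil
  | cons a l ih =>
    intro h
    unfold chain at h
    rw [Bool.and_eq_true] at h
    have hl := ih h.2
    rw [List.pairwise_cons]
    refine ⟨?_, hl⟩
    cases l with
    | nil => intro b hb; simp at hb
    | cons b l =>
      have hab := gapOK_sound a b h.1
      intro c hc
      rw [List.pairwise_cons] at hl
      rcases List.mem_cons.1 hc with rfl | hc
      · exact hab
      · have := hl.1 c hc
        linarith

theorem eqT_sound (a b : T) (h : eqT a b = true) : a = b := by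
  unfold eqT at h
  simp only [Bool.and_eq_true, decide_eq_true_eq] at h
  obtain ⟨⟨h1, h2⟩, h3⟩ := h
  exact Prod.ext h1 (Prod.ext h2 h3)

theorem sub_sound (g : T → T) : ∀ (l M : List T), sub g l M = true → ∀ a ∈ l, big (g a) = true ∨ g a ∈ M := by
  intro l
  induction l with
  | nil => intro M _ a ha; simp at ha
  | cons b l ih =>
    intro M h a ha
    unfold sub at h
    split_ifs at h with hb
    · rcases List.mem_cons.1 ha with rfl | ha
      · exact Or.inl hb
      · exact ih M h a ha
    · cases hd : M.dropWhile (fun t => !(eqT t (g b))) with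
      | nil => rw [hd] at h; simp at h
      | cons x M' =>
        rw [hd] at h
        simp only at h
        have hsuf : (x :: M') <:+ M := by rw [← hd]; exact List.dropWhile_suffix _
        have hx : eqT x (g b) = true := by
          have hne : M.dropWhile (fun t => !(eqT t (g b))) ≠ [] := by rw [hd]; simp
          have := List.head_dropWhile_not (fun t => !(eqT t (g b))) hne
          simp only [hd, List.head_cons] at this
          simpa using this
        rcases List.mem_cons.1 ha with rfl | ha
        · right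
          have := eqT_sound _ _ hx
          rw [← this]
          exact hsuf.subset (by simp)
        · rcases ih M' h a ha with h' | h'
          · exact Or.inl h'
          · exact Or.inr (hsuf.subset (List.mem_cons_of_mem _ h'))

theorem val_m0 (t : T) : val (m0 t) = val t * al := by
  unfold val m0; push_cast; linear_combination (-(t.2.2:ℝ)) * al_eq
theorem val_m2 (t : T) : val (m2 t) = val t * (al^2 - al) := by
  unfold val m2; push_cast; linear_combination (-(t.2.1:ℝ) - (t.2.2:ℝ)*(al+1)) * al_eq
theorem val_m1 (t : T) : val (m1 t) = val t * (al^2 - al - 1) := by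
  have : val (m1 t) = val (m2 t) - val t := by unfold val m1 m2; push_cast; ring
  rw [this, val_m2]; ring
theorem val_m3 (t : T) : val (m3 t) = val t * (1 + 2*al) := by
  unfold val m3; push_cast; linear_combination (-2*(t.2.2:ℝ)) * al_eq

theorem one_mem : ((1,0,0) : T) ∈ L := by
  have : L.any (fun t => eqT t (1,0,0)) = true := by decide +kernel
  rw [List.any_eq_true] at this
  obtain ⟨x, hx, h⟩ := this
  rw [← eqT_sound _ _ h]; exact hx

/-- values of elements of `L` -/
def LV (x : ℝ) : Prop := ∃ t ∈ L, val t = x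

theorem LV_one : LV 1 := ⟨_, one_mem, by simp [val]⟩

theorem LV_mul {x : ℝ} (hx : LV x) :
    (x * al < 1200000000 → LV (x*al)) ∧ (x * (al^2-al-1) < 1200000000 → LV (x*(al^2-al-1))) ∧
    (x * (al^2-al) < 1200000000 → LV (x*(al^2-al))) ∧ (x * (1+2*al) < 1200000000 → LV (x*(1+2*al))) := by
  obtain ⟨t, ht, rfl⟩ := hx
  refine ⟨?_, ?_, ?_, ?_⟩
  · intro h
    rcases sub_sound _ _ _ sub0 t ht with hb | hm
    · exfalso; have := big_sound _ hb; rw [val_m0] at this; linarith
    · exact ⟨_, hm, val_m0 t⟩
  · intro h
    rcases sub_sound _ _ _ sub1 t ht with hb | hm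
    · exfalso; have := big_sound _ hb; rw [val_m1] at this; linarith
    · exact ⟨_, hm, val_m1 t⟩
  · intro h
    rcases sub_sound _ _ _ sub2 t ht with hb | hm
    · exfalso; have := big_sound _ hb; rw [val_m2] at this; linarith
    · exact ⟨_, hm, val_m2 t⟩
  · intro h
    rcases sub_sound _ _ _ sub3 t ht with hb | hm
    · exfalso; have := big_sound _ hb; rw [val_m3] at this; linarith
    · exact ⟨_, hm, val_m3 t⟩

theorem LV_pow (g : ℝ) (hg : 1 ≤ g) (hstep : ∀ x, LV x → x * g < 1200000000 → LV (x*g)) :
    ∀ (n : ℕ) (x : ℝ), 0 ≤ x → LV x → x * g^n < 1200000000 → LV (x * g^n) := by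
  intro n
  induction n with
  | zero => intro x _ hx _; simpa using hx
  | succ n ih =>
    intro x hx0 hx h
    have e : x * g^(n+1) = (x*g^n) * g := by ring
    rw [e] at h ⊢
    have hx1 : 0 ≤ x * g^n := by positivity
    have : x * g^n < 1200000000 := by nlinarith
    exact hstep _ (ih x hx0 hx this) h

theorem LV_all (i j k l : ℕ) (h : al^i * (al^2-al-1)^j * (al^2-al)^k * (1+2*al)^l < 1200000000) :
    LV (al^i * (al^2-al-1)^j * (al^2-al)^k * (1+2*al)^l) := by
  have hlo := al_lo
  have hhi := al_hi
  have g0 : 1 ≤ al := by linarith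
  have g1 : 1 ≤ al^2-al-1 := by nlinarith
  have g2 : 1 ≤ al^2-al := by nlinarith
  have g3 : 1 ≤ 1+2*al := by linarith
  have p3 : 1 ≤ (1+2*al)^l := one_le_pow₀ g3
  have p2 : 1 ≤ (al^2-al)^k := one_le_pow₀ g2
  have p1 : 1 ≤ (al^2-al-1)^j := one_le_pow₀ g1
  have p0 : 1 ≤ al^i := one_le_pow₀ g0
  have q1 : 0 ≤ al^i * (al^2-al-1)^j := by positivity
  have q2 : 0 ≤ al^i * (al^2-al-1)^j * (al^2-al)^k := by positivity
  have h2 : al^i * (al^2-al-1)^j * (al^2-al)^k < 1200000000 := by nlinarith
  have h1 : al^i * (al^2-al-1)^j < 1200000000 := by nlinarith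
  have h0 : al^i < 1200000000 := by nlinarith
  have s0 : LV (al^i) := by
    have := LV_pow al g0 (fun x hx => (LV_mul hx).1) i 1 zero_le_one LV_one (by simpa using h0)
    simpa using this
  have s1 := LV_pow _ g1 (fun x hx => (LV_mul hx).2.1) j _ (by positivity) s0 h1
  have s2 := LV_pow _ g2 (fun x hx => (LV_mul hx).2.2.1) k _ q1 s1 h2
  exact LV_pow _ g3 (fun x hx => (LV_mul hx).2.2.2) l _ q2 s2 h

theorem LV_sep {x y : ℝ} (hx : LV x) (hy : LV y) (hxy : x ≠ y) : 1 ≤ |x - y| := by
  obtain ⟨s, hs, rfl⟩ := hx
  obtain ⟨t, ht, rfl⟩ := hy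
  have hp := chain_pairwise L chainL
  have hst : s ≠ t := fun h => hxy (by rw [h])
  have := List.Pairwise.forall_of_forall_of_flip (R := fun s t => s ≠ t → 1 ≤ |val s - val t|) (l := L)
    (fun x _ h => absurd rfl h)
    (hp.imp (fun {a b} h _ => by rw [abs_sub_comm]; exact le_trans (by linarith) (le_abs_self _)))
    (hp.imp (fun {a b} h _ => le_trans (by linarith) (le_abs_self _)))
  exact this hs ht hst

end Pool.Agent.Beurl
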