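import Mathlib
import Pool.Agent.Beurl.Fin2

set_option autoImplicit false

namespace Pool.Agent.Beurl

noncomputable def qq (n : ℕ) : ℕ := Nat.nth Nat.Prime (n+3)

theorem qq_prime (n : ℕ) : (qq n).Prime := Nat.prime_nth_prime _

theorem nth2 : Nat.nth Nat.Prime 2 = 5 := by
  have h := Nat.nth_count (p := Nat.Prime) (by norm_num : Nat.Prime 5)
  have : Nat.count Nat.Prime 5 = 2 := by decide
  rwa [this] at h

theorem qq_gt (n : ℕ) : 5 < qq n := by
  have h : Nat.nth Nat.Prime 2 < Nat.nth Nat.Prime (n+3) :=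
    Nat.nth_strictMono Nat.infinite_setOfPred_prime (by omega)
  rw [nth2] at h
  exact h

theorem qq_mono (n : ℕ) : qq n < qq (n+1) :=
  Nat.nth_strictMono Nat.infinite_setOfPred_prime (by omega)

theorem qq_inj {n m : ℕ} (h : qq n = qq m) : n = m := by
  have := Nat.nth_injective Nat.infinite_setOfPred_prime h
  omega

noncomputable def aa : ℕ → ℝ
  | 0 => al
  | 1 => al^2 - al - 1
  | 2 => al^2 - al
  | 3 => 1 + 2*al
  | (n+4) => (qq n : ℝ) * al^(2*(qq n + 10))

noncomputable def zz : ℕ → ℂ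
  | 0 => be
  | 1 => be^2 - be - 1
  | 2 => be^2 - be
  | 3 => 1 + 2*be
  | (n+4) => (qq n : ℂ) * be^(2*(qq n + 10))

noncomputable def ee : ℕ → ZMod 2
  | 0 => 1
  | 1 => 1
  | 2 => 0
  | 3 => 1
  | (n+4) => (qq n : ZMod 2)

noncomputable def NN : ℕ → ℕ
  | 0 => 1
  | 1 => 4
  | 2 => 4
  | 3 => 5
  | (n+4) => (qq n)^3

theorem rep_al : Rep al be 1 := ⟨0, 1, 0, by simp, by simp, by simp⟩

theorem rep_i (i : ℕ) : Rep (aa i) (zz i) (ee i) := by
  match i with
  | 0 => exact rep_al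
  | 1 => exact ⟨-1, -1, 1, by simp [aa]; ring, by simp [zz]; ring, by simp [ee]; rfl⟩
  | 2 => exact ⟨0, -1, 1, by simp [aa]; ring, by simp [zz]; ring, by simp [ee]; rfl⟩
  | 3 => exact ⟨1, 2, 0, by simp [aa], by simp [zz], by simp [ee]; rfl⟩
  | (n+4) =>
    have h1 : Rep (qq n : ℝ) (qq n : ℂ) (qq n : ZMod 2) := ⟨(qq n : ℤ), 0, 0, by simp, by simp, by simp⟩
    have h2 := h1.mul (rep_al.pow (2*(qq n + 10)))
    simpa [aa, zz, ee] using h2

theorem al_be : al * ‖be‖^2 = 1 := by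
  have := norm_id 0 1 0
  simpa using this

theorem nn_i (i : ℕ) : aa i * ‖zz i‖^2 = NN i := by
  match i with
  | 0 => simpa [aa, zz, NN] using al_be
  | 1 =>
    have := norm_id (-1) (-1) 1
    have e : (((-1:ℝ):ℂ)) + ((-1:ℝ):ℂ) * be + ((1:ℝ):ℂ) * be^2 = zz 1 := by simp [zz]; ring
    rw [e] at this
    have e2 : (-1:ℝ) + (-1)*al+1*al^2 = aa 1 := by simp [aa]; ring
    rw [e2] at this
    rw [this]; simp [NN]; norm_num
  | 2 =>
    have := norm_id 0 (-1) 1
    have e : (((0:ℝ):ℂ)) + ((-1:ℝ):ℂ) * be + ((1:ℝ):ℂ) * be^2 = zz 2 := by simp [zz]; ring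
    rw [e] at this
    have e2 : (0:ℝ) + (-1)*al+1*al^2 = aa 2 := by simp [aa]; ring
    rw [e2] at this
    rw [this]; simp [NN]; norm_num
  | 3 =>
    have := norm_id 1 2 0
    have e : (((1:ℝ):ℂ)) + ((2:ℝ):ℂ) * be + ((0:ℝ):ℂ) * be^2 = zz 3 := by simp [zz]
    rw [e] at this
    have e2 : (1:ℝ) + 2*al+0*al^2 = aa 3 := by simp [aa]
    rw [e2] at this
    rw [this]; simp [NN]; norm_num
  | (n+4) =>
    simp only [aa, zz, NN]
    rw [norm_mul, norm_pow, Complex.norm_natCast]
    push_cast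
    have h := al_be
    have : al^(2*(qq n+10)) * (‖be‖^(2*(qq n+10)))^2 = 1 := by
      have e : al^(2*(qq n+10)) * (‖be‖^(2*(qq n+10)))^2 = (al * ‖be‖^2)^(2*(qq n+10)) := by
        rw [mul_pow, ← pow_mul, ← pow_mul, mul_comm 2 (2*(qq n+10))]
      rw [e, h, one_pow]
    calc (qq n : ℝ) * al^(2*(qq n+10)) * ((qq n : ℝ) * ‖be‖^(2*(qq n+10)))^2
        = (qq n : ℝ)^3 * (al^(2*(qq n+10)) * (‖be‖^(2*(qq n+10)))^2) := by ring
      _ = (qq n : ℝ)^3 := by rw [this, mul_one]

theorem al_bd : (28311/10000 : ℝ) < al ∧ al < 28312/10000 := by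
  have := al_lo; have := al_hi
  constructor <;> linarith

theorem tail_big (n : ℕ) : 1200000000 ≤ aa (n+4) := by
  have h := al_bd
  have hq := qq_gt n
  have hq' : (1:ℝ) ≤ (qq n : ℝ) := by exact_mod_cast (by omega : 1 ≤ qq n)
  have h1 : (2:ℝ)^31 ≤ al^(2*(qq n+10)) := by
    calc (2:ℝ)^31 ≤ 2^(2*(qq n+10)) := pow_le_pow_right₀ (by norm_num) (by omega)
      _ ≤ al^(2*(qq n+10)) := pow_le_pow_left₀ (by norm_num) (by linarith) _
  simp only [aa]
  have h2 : (2:ℝ)^31 ≤ (qq n:ℝ) * al^(2*(qq n+10)) := by nlinarith [pow_pos (by norm_num : (0:ℝ)<2) 31]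
  have : (1200000000:ℝ) ≤ 2^31 := by norm_num
  linarith

theorem aa_gt_one (i : ℕ) : 1 < aa i := by
  have h := al_bd
  match i with
  | 0 => simp only [aa]; linarith
  | 1 => simp only [aa]; nlinarith
  | 2 => simp only [aa]; nlinarith
  | 3 => simp only [aa]; linarith
  | (n+4) => have := tail_big n; linarith

theorem aa_mono : StrictMono aa := by
  apply strictMono_nat_of_lt_succ
  intro n
  have h := al_bd
  match n with
  | 0 => show al < al^2-al-1; nlinarith
  | 1 => show al^2-al-1 < al^2-al; linarith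
  | 2 => show al^2-al < 1+2*al; nlinarith
  | 3 =>
    have := tail_big 0
    show 1+2*al < aa (0+4)
    linarith
  | (n+4) =>
    show (qq n : ℝ) * al^(2*(qq n + 10)) < (qq (n+1) : ℝ) * al^(2*(qq (n+1) + 10))
    have h1 : (qq n : ℝ) < qq (n+1) := by exact_mod_cast qq_mono n
    have h2 : al^(2*(qq n + 10)) ≤ al^(2*(qq (n+1) + 10)) :=
      pow_le_pow_right₀ (by linarith) (by have := qq_mono n; omega)
    have h3 : 0 < al^(2*(qq n + 10)) := by have : 0 < al := by linarith
                                           positivity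
    have h4 : (0:ℝ) ≤ qq n := by positivity
    nlinarith

/-- finite products over `range (4+N)` -/
noncomputable def P (N : ℕ) (k : ℕ → ℕ) : ℝ := ∏ i ∈ Finset.range (4+N), aa i ^ k i
noncomputable def Z (N : ℕ) (k : ℕ → ℕ) : ℂ := ∏ i ∈ Finset.range (4+N), zz i ^ k i
noncomputable def E (N : ℕ) (k : ℕ → ℕ) : ZMod 2 := ∏ i ∈ Finset.range (4+N), ee i ^ k i
noncomputable def M (N : ℕ) (k : ℕ → ℕ) : ℕ := ∏ i ∈ Finset.range (4+N), NN i ^ k i

theorem rep_P (N : ℕ) (k : ℕ → ℕ) : Rep (P N k) (Z N k) (E N k) :=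
  Rep.prod _ _ _ _ (fun i => (rep_i i).pow (k i))

theorem norm_P (N : ℕ) (k : ℕ → ℕ) : P N k * ‖Z N k‖^2 = M N k := by
  unfold P Z M
  rw [norm_prod, ← Finset.prod_pow, ← Finset.prod_mul_distrib]
  push_cast
  apply Finset.prod_congr rfl
  intro i _
  rw [← nn_i i, norm_pow, mul_pow, ← pow_mul, ← pow_mul, mul_comm 2 (k i)]

/-- prime tag -/
noncomputable def rr : ℕ → ℕ
  | 0 => 2
  | 1 => 2
  | 2 => 2
  | 3 => 5
  | (n+4) => qq n

theorem rr_prime (i : ℕ) : (rr i).Prime := by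
  match i with
  | 0 => exact Nat.prime_two
  | 1 => exact Nat.prime_two
  | 2 => exact Nat.prime_two
  | 3 => exact (by norm_num : Nat.Prime 5)
  | (n+4) => exact qq_prime n

theorem rr_dvd (i : ℕ) (hi : i ≠ 0) : rr i ∣ NN i := by
  match i with
  | 0 => exact absurd rfl hi
  | 1 => show 2 ∣ 4; norm_num
  | 2 => show 2 ∣ 4; norm_num
  | 3 => show 5 ∣ 5; norm_num
  | (n+4) => show qq n ∣ (qq n)^3; exact dvd_pow_self _ (by norm_num)

theorem rr_only (i j : ℕ) (hi : i ≠ 0) (hi2 : i ≠ 2) (hj2 : j ≠ 2) (h : rr i ∣ NN j) : j = i := by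
  have q2 : ∀ n, ¬ qq n ∣ 1 := fun n => (qq_prime n).one_lt.ne' ∘ Nat.dvd_one.1
  have q4 : ∀ n, ¬ qq n ∣ 4 := fun n h => by have := Nat.le_of_dvd (by norm_num) h; have := qq_gt n; omega
  have q5 : ∀ n, ¬ qq n ∣ 5 := fun n h => by have := Nat.le_of_dvd (by norm_num) h; have := qq_gt n; omega
  match i, j with
  | 0, _ => exact absurd rfl hi
  | 2, _ => exact absurd rfl hi2
  | _, 2 => exact absurd rfl hj2
  | 1, 0 => exact absurd h (by show ¬ 2 ∣ 1; norm_num)
  | 1, 1 => rfl
  | 1, 3 => exact absurd h (by show ¬ 2 ∣ 5; norm_num)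
  | 1, (m+4) =>
    exfalso
    have h' : 2 ∣ (qq m)^3 := h
    have := (Nat.prime_dvd_prime_iff_eq Nat.prime_two (qq_prime m)).1 (Nat.Prime.dvd_of_dvd_pow Nat.prime_two h')
    have := qq_gt m; omega
  | 3, 0 => exact absurd h (by show ¬ 5 ∣ 1; norm_num)
  | 3, 1 => exact absurd h (by show ¬ 5 ∣ 4; norm_num)
  | 3, 3 => rfl
  | 3, (m+4) =>
    exfalso
    have h' : 5 ∣ (qq m)^3 := h
    have p5 : Nat.Prime 5 := by norm_num
    have := (Nat.prime_dvd_prime_iff_eq p5 (qq_prime m)).1 (Nat.Prime.dvd_of_dvd_pow p5 h')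
    have := qq_gt m; omega
  | (n+4), 0 => exact absurd h (q2 n)
  | (n+4), 1 => exact absurd h (q4 n)
  | (n+4), 3 => exact absurd h (q5 n)
  | (n+4), (m+4) =>
    have h' : qq n ∣ (qq m)^3 := h
    have := (Nat.prime_dvd_prime_iff_eq (qq_prime n) (qq_prime m)).1 (Nat.Prime.dvd_of_dvd_pow (qq_prime n) h')
    have := qq_inj this
    omega

theorem E_zero (N : ℕ) (k : ℕ → ℕ) (h : k 2 ≠ 0) : E N k = 0 := by
  unfold E
  apply Finset.prod_eq_zero (i := 2) (by simp; omega)
  show (0 : ZMod 2)^(k 2) = 0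
  exact zero_pow h

theorem E_one (N : ℕ) (k : ℕ → ℕ) (h : k 2 = 0) : E N k = 1 := by
  unfold E
  apply Finset.prod_eq_one
  intro i _
  match i with
  | 0 => simp [ee]
  | 1 => simp [ee]
  | 2 => rw [h]; simp
  | 3 => simp [ee]
  | (n+4) =>
    have : ((qq n : ℕ) : ZMod 2) = 1 := by
      have ho : Odd (qq n) := (qq_prime n).odd_of_ne_two (by have := qq_gt n; omega)
      exact (ZMod.natCast_eq_one_iff_odd).2 ho
    simp [ee, this]

theorem no_idx (N : ℕ) (k l : ℕ → ℕ) (hd : ∀ i, k i = 0 ∨ l i = 0) (hl2 : l 2 = 0) (hk2 : k 2 = 0)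
    (hM : M N k = M N l) (i : ℕ) (hi0 : i ≠ 0) (hiN : i < 4 + N) : k i = 0 := by
  by_contra hk
  have hi2 : i ≠ 2 := by rintro rfl; exact hk hk2
  have h1 : rr i ∣ M N k := by
    unfold M
    apply dvd_trans _ (Finset.dvd_prod_of_mem _ (Finset.mem_range.2 hiN))
    exact dvd_trans (rr_dvd i hi0) (dvd_pow_self _ hk)
  rw [hM] at h1
  unfold M at h1
  obtain ⟨j, _, hj⟩ := (Prime.dvd_finsetProd_iff (rr_prime i).prime _).1 h1
  have hlj : l j ≠ 0 := by
    intro h0
    rw [h0, pow_zero] at hj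
    exact (rr_prime i).one_lt.ne' (Nat.dvd_one.1 hj)
  have hj2 : j ≠ 2 := by rintro rfl; exact hlj hl2
  have := rr_only i j hi0 hi2 hj2 ((rr_prime i).dvd_of_dvd_pow hj)
  subst this
  rcases hd j with h | h
  · exact hk h
  · exact hlj h

theorem P_ne (N : ℕ) (k l : ℕ → ℕ) (hd : ∀ i, k i = 0 ∨ l i = 0)
    (hne : ∃ i < 4 + N, k i ≠ 0 ∨ l i ≠ 0) : P N k ≠ P N l := by
  intro h
  rcases (rep_P N k).key (rep_P N l) with ⟨_, hz, he⟩ | h'
  · have hM : M N k = M N l := by
      have h1 := norm_P N k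
      have h2 := norm_P N l
      rw [h, hz, h2] at h1
      exact_mod_cast h1.symm
    have h22 : k 2 = 0 ∧ l 2 = 0 := by
      rcases hd 2 with h0 | h0
      · refine ⟨h0, ?_⟩
        by_contra h1
        rw [E_one N k h0, E_zero N l h1] at he
        exact absurd he (by decide)
      · refine ⟨?_, h0⟩
        by_contra h1
        rw [E_one N l h0, E_zero N k h1] at he
        exact absurd he (by decide)
    have hk := no_idx N k l hd h22.2 h22.1 hM
    have hl := no_idx N l k (fun i => (hd i).symm) h22.1 h22.2 hM.symm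
    have hPk : P N k = al^(k 0) := by
      unfold P
      rw [Finset.prod_eq_single 0]
      · rfl
      · intro i hi h0
        rw [hk i h0 (Finset.mem_range.1 hi), pow_zero]
      · intro h0; simp at h0
    have hPl : P N l = al^(l 0) := by
      unfold P
      rw [Finset.prod_eq_single 0]
      · rfl
      · intro i hi h0
        rw [hl i h0 (Finset.mem_range.1 hi), pow_zero]
      · intro h0; simp at h0
    rw [hPk, hPl] at h
    have hinj := pow_right_injective₀ (by have := al_bd; linarith : (0:ℝ) < al) (by have := al_bd; linarith : al ≠ 1) h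
    obtain ⟨i, hiN, hi⟩ := hne
    by_cases h0 : i = 0
    · subst h0
      rcases hd 0 with h0 | h0 <;> omega
    · have := hk i h0 hiN
      have := hl i h0 hiN
      omega
  · rw [h, sub_self, abs_zero, zero_mul] at h'
    linarith

/-- weights -/
def wt (i : ℕ) : ℕ := if i < 4 then 1 else 12

theorem P_pos (N : ℕ) (k : ℕ → ℕ) : 1 ≤ P N k := by
  unfold P
  calc (1:ℝ) = ∏ i ∈ Finset.range (4+N), (1:ℝ) := by simp
    _ ≤ _ := Finset.prod_le_prod (fun _ _ => zero_le_one) (fun i _ => one_le_pow₀ (aa_gt_one i).le)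

theorem P_split (N : ℕ) (k : ℕ → ℕ) : P N k = al^(k 0) * (al^2-al-1)^(k 1) * (al^2-al)^(k 2) * (1+2*al)^(k 3) *
    ∏ i ∈ Finset.range N, aa (4+i) ^ k (4+i) := by
  unfold P
  rw [Finset.prod_range_add]
  congr 1
  simp [Finset.prod_range_succ, aa]

theorem tail_zero (N : ℕ) (k : ℕ → ℕ) (h : P N k < 1200000000) (i : ℕ) (hi : i < N) : k (4+i) = 0 := by
  by_contra hk
  have h1 : aa (4+i) ≤ P N k := by
    unfold P
    calc aa (4+i) ≤ aa (4+i) ^ k (4+i) := le_self_pow₀ (aa_gt_one _).le hk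
      _ ≤ ∏ i ∈ Finset.range (4+N), aa i ^ k i := by
        rw [← Finset.mul_prod_erase (Finset.range (4+N)) (fun i => aa i ^ k i) (a := 4+i) (Finset.mem_range.2 (by omega))]
        have h0 : (1:ℝ) ≤ ∏ j ∈ (Finset.range (4+N)).erase (4+i), aa j ^ k j := by
          calc (1:ℝ) = ∏ j ∈ (Finset.range (4+N)).erase (4+i), (1:ℝ) := by simp
            _ ≤ _ := Finset.prod_le_prod (fun _ _ => zero_le_one) (fun j _ => one_le_pow₀ (aa_gt_one j).le)
        have h00 : 0 ≤ aa (4+i) ^ k (4+i) := by have := aa_gt_one (4+i); positivity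
        nlinarith
  have h2 := tail_big i
  rw [add_comm] at h2
  linarith

theorem LV_P (N : ℕ) (k : ℕ → ℕ) (h : P N k < 1200000000) : LV (P N k) := by
  have ht := tail_zero N k h
  have e : P N k = al^(k 0) * (al^2-al-1)^(k 1) * (al^2-al)^(k 2) * (1+2*al)^(k 3) := by
    rw [P_split]
    have : ∏ i ∈ Finset.range N, aa (4+i) ^ k (4+i) = 1 := by
      apply Finset.prod_eq_one
      intro i hi
      rw [ht i (Finset.mem_range.1 hi), pow_zero]
    rw [this, mul_one]
  rw [e] at h ⊢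
  exact LV_all _ _ _ _ h

theorem zz_le (i : ℕ) (c : ℝ) (h : (NN i : ℝ) ≤ c * aa i) : ‖zz i‖^2 ≤ c := by
  have h1 := nn_i i
  have h2 := aa_gt_one i
  by_contra hc
  push Not at hc
  nlinarith

theorem tail_zz (n : ℕ) : ‖zz (n+4)‖^2 ≤ (1/1000 : ℝ) := by
  apply zz_le
  simp only [NN, aa]
  push_cast
  have h := al_bd
  have h1 : (2:ℝ)^(2*(qq n+10)) ≤ al^(2*(qq n+10)) := pow_le_pow_left₀ (by norm_num) (by linarith) _
  have h2 : (qq n : ℝ) < 2^(qq n) := by exact_mod_cast Nat.lt_two_pow_self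
  have h3 : (2:ℝ)^(2*(qq n+10)) = (2^(qq n))^2 * 1048576 := by
    rw [mul_comm, pow_mul, pow_add]; norm_num; ring
  have hq : (0:ℝ) < qq n := by exact_mod_cast (qq_prime n).pos
  have h4 : (qq n : ℝ)^2 ≤ (2^(qq n))^2 := by gcongr
  have h5 : (qq n : ℝ)^2 * 1048576 ≤ al^(2*(qq n+10)) := by
    calc (qq n : ℝ)^2 * 1048576 ≤ (2^(qq n))^2 * 1048576 := by gcongr
      _ = _ := h3.symm
      _ ≤ _ := h1
  have h6 : (qq n : ℝ)^3 = (qq n : ℝ) * (qq n : ℝ)^2 := by ring
  rw [h6]
  have : (qq n : ℝ) * (qq n : ℝ)^2 ≤ qq n * (1/1000 * al^(2*(qq n+10))) := by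
    apply mul_le_mul_of_nonneg_left _ hq.le
    nlinarith [sq_nonneg (qq n : ℝ)]
  linarith

theorem zz_B (i : ℕ) : ‖zz i‖^2 ≤ (239/250 : ℝ)^(wt i) := by
  have h := al_lo
  have h' := al_hi
  match i with
  | 0 => simp only [wt]; norm_num; apply zz_le; simp only [NN, aa]; push_cast; nlinarith
  | 1 => simp only [wt]; norm_num; apply zz_le; simp only [NN, aa]; push_cast; nlinarith
  | 2 => simp only [wt]; norm_num; apply zz_le; simp only [NN, aa]; push_cast; nlinarith
  | 3 => simp only [wt]; norm_num; apply zz_le; simp only [NN, aa]; push_cast; nlinarith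
  | (n+4) =>
    have e : wt (n+4) = 12 := by simp [wt]
    rw [e]
    refine le_trans (tail_zz n) (by norm_num)

theorem zz_C (i : ℕ) (hi : i ≠ 1) : ‖zz i‖^2 ≤ (7717/10000 : ℝ)^(wt i) := by
  have h := al_lo
  have h' := al_hi
  match i with
  | 0 => simp only [wt]; norm_num; apply zz_le; simp only [NN, aa]; push_cast; nlinarith
  | 1 => exact absurd rfl hi
  | 2 => simp only [wt]; norm_num; apply zz_le; simp only [NN, aa]; push_cast; nlinarith
  | 3 => simp only [wt]; norm_num; apply zz_le; simp only [NN, aa]; push_cast; nlinarith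
  | (n+4) =>
    have e : wt (n+4) = 12 := by simp [wt]
    rw [e]
    refine le_trans (tail_zz n) (by norm_num)

theorem aa_le3 (i : ℕ) (hi : i < 4) : aa i ≤ 1+2*al := by
  have := aa_mono.monotone (by omega : i ≤ 3)
  exact this

theorem deg_ge (N : ℕ) (k : ℕ → ℕ) (h : (1+2*al)^11 < P N k) :
    12 ≤ ∑ i ∈ Finset.range (4+N), wt i * k i := by
  by_contra hc
  push Not at hc
  have hk : ∀ i ∈ Finset.range (4+N), 4 ≤ i → k i = 0 := by
    intro i hi h4
    by_contra h0
    have : wt i * k i ≤ ∑ i ∈ Finset.range (4+N), wt i * k i :=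
      Finset.single_le_sum (f := fun i => wt i * k i) (fun _ _ => Nat.zero_le _) hi
    have hw : wt i = 12 := by simp [wt]; omega
    rw [hw] at this
    have : 1 ≤ k i := Nat.one_le_iff_ne_zero.2 h0
    omega
  have h1 : P N k ≤ (1+2*al)^(∑ i ∈ Finset.range (4+N), wt i * k i) := by
    unfold P
    rw [← Finset.prod_pow_eq_pow_sum]
    apply Finset.prod_le_prod
    · intro i _
      have := aa_gt_one i
      positivity
    · intro i hi
      by_cases h4 : i < 4
      · have hw : wt i = 1 := by simp [wt, h4]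
        rw [hw, one_mul]
        have := aa_gt_one i
        exact pow_le_pow_left₀ (by linarith) (aa_le3 i h4) _
      · rw [hk i hi (by omega)]
        simp
  have h2 : (1+2*al)^(∑ i ∈ Finset.range (4+N), wt i * k i) ≤ (1+2*al)^11 := by
    apply pow_le_pow_right₀ _ (by omega)
    have := al_bd; linarith
  linarith

theorem Z_le (N : ℕ) (k : ℕ → ℕ) (c : ℝ) (hc0 : 0 ≤ c) (hc1 : c ≤ 1)
    (hz : ∀ i, k i ≠ 0 → ‖zz i‖^2 ≤ c^(wt i)) (h : (1+2*al)^11 < P N k) : ‖Z N k‖ ≤ c^6 := by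
  have h1 : ‖Z N k‖^2 ≤ c^12 := by
    unfold Z
    rw [norm_prod, ← Finset.prod_pow]
    calc ∏ i ∈ Finset.range (4+N), ‖zz i ^ k i‖^2 ≤ ∏ i ∈ Finset.range (4+N), c^(wt i * k i) := by
          apply Finset.prod_le_prod
          · intro i _; positivity
          · intro i _
            by_cases h0 : k i = 0
            · rw [h0]; simp
            · have e : ‖zz i ^ k i‖^2 = (‖zz i‖^2)^(k i) := by
                rw [norm_pow, ← pow_mul, ← pow_mul, mul_comm]
              rw [e, pow_mul]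
              exact pow_le_pow_left₀ (by positivity) (hz i h0) _
      _ = c^(∑ i ∈ Finset.range (4+N), wt i * k i) := Finset.prod_pow_eq_pow_sum _ _ _
      _ ≤ c^12 := pow_le_pow_of_le_one hc0 hc1 (deg_ge N k h)
  have h2 : c^12 = (c^6)^2 := by ring
  rw [h2] at h1
  exact (abs_le_of_sq_le_sq' h1 (by positivity)).2

theorem core (N : ℕ) (k l : ℕ → ℕ) (hd : ∀ i, k i = 0 ∨ l i = 0)
    (hne : ∃ i < 4 + N, k i ≠ 0 ∨ l i ≠ 0) : 1 ≤ |P N k - P N l| := by
  have hP := P_ne N k l hd hne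
  by_cases hb : P N k < 1200000000 ∧ P N l < 1200000000
  · exact LV_sep (LV_P N k hb.1) (LV_P N l hb.2) hP
  · by_contra hlt
    push Not at hlt
    have h3 : (1+2*al)^11 < 1199999999 := by
      have h := al_bd
      have : (1+2*al)^11 ≤ (6662355/1000000 : ℝ)^11 := by
        have := al_hi
        apply pow_le_pow_left₀ (by linarith)
        linarith
      refine lt_of_le_of_lt this (by norm_num)
    have hlt' := abs_lt.1 hlt
    have hbig : (1+2*al)^11 < P N k ∧ (1+2*al)^11 < P N l := by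
      rw [not_and_or] at hb
      rcases hb with hb | hb
      · push Not at hb
        constructor <;> linarith
      · push Not at hb
        constructor <;> linarith
    have hsum : ‖Z N k‖ + ‖Z N l‖ < 1 := by
      rcases hd 1 with h1 | h1
      · have hk := Z_le N k (7717/10000) (by norm_num) (by norm_num)
          (fun i hi => zz_C i (by rintro rfl; exact hi h1)) hbig.1
        have hl := Z_le N l (239/250) (by norm_num) (by norm_num) (fun i _ => zz_B i) hbig.2
        have : (7717/10000 : ℝ)^6 + (239/250)^6 < 1 := by norm_num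
        linarith
      · have hl := Z_le N l (7717/10000) (by norm_num) (by norm_num)
          (fun i hi => zz_C i (by rintro rfl; exact hi h1)) hbig.2
        have hk := Z_le N k (239/250) (by norm_num) (by norm_num) (fun i _ => zz_B i) hbig.1
        have : (7717/10000 : ℝ)^6 + (239/250)^6 < 1 := by norm_num
        linarith
    have hz : ‖Z N k - Z N l‖ < 1 := lt_of_le_of_lt (norm_sub_le _ _) hsum
    rcases (rep_P N k).key (rep_P N l) with ⟨h, _⟩ | h
    · exact hP h
    · have h0 : ‖Z N k - Z N l‖^2 ≤ 1 := by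
        have := norm_nonneg (Z N k - Z N l)
        nlinarith
      have h1 : 0 ≤ |P N k - P N l| := abs_nonneg _
      nlinarith

theorem main (N : ℕ) (k l : ℕ → ℕ) (hne : ∃ i < 4 + N, k i ≠ l i) : 1 ≤ |P N k - P N l| := by
  set m : ℕ → ℕ := fun i => min (k i) (l i) with hm
  have hk : P N k = P N m * P N (fun i => k i - l i) := by
    unfold P
    rw [← Finset.prod_mul_distrib]
    apply Finset.prod_congr rfl
    intro i _
    rw [← pow_add]
    congr 1
    simp only [hm]; omega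
  have hl : P N l = P N m * P N (fun i => l i - k i) := by
    unfold P
    rw [← Finset.prod_mul_distrib]
    apply Finset.prod_congr rfl
    intro i _
    rw [← pow_add]
    congr 1
    simp only [hm]; omega
  have hc := core N (fun i => k i - l i) (fun i => l i - k i) (fun i => by omega)
    (by obtain ⟨i, hi, h⟩ := hne; exact ⟨i, hi, by omega⟩)
  rw [hk, hl, ← mul_sub, abs_mul]
  have hm1 := P_pos N m
  rw [abs_of_nonneg (by linarith : 0 ≤ P N m)]
  nlinarith

theorem sep (k l : ℕ →₀ ℕ) (h : k ≠ l) :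
    1 ≤ |k.prod (fun i e => aa i ^ e) - l.prod (fun i e => aa i ^ e)| := by
  obtain ⟨N, hN⟩ : ∃ N, k.support ∪ l.support ⊆ Finset.range (4+N) := by
    refine ⟨(k.support ∪ l.support).sup id + 1, ?_⟩
    intro i hi
    have : i ≤ (k.support ∪ l.support).sup id := Finset.le_sup (f := id) hi
    rw [Finset.mem_range]; omega
  have hk : k.prod (fun i e => aa i ^ e) = P N k := by
    unfold P
    exact Finsupp.prod_of_support_subset k (fun i hi => hN (Finset.mem_union_left _ hi)) _ (by simp)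
  have hl : l.prod (fun i e => aa i ^ e) = P N l := by
    unfold P
    exact Finsupp.prod_of_support_subset l (fun i hi => hN (Finset.mem_union_right _ hi)) _ (by simp)
  rw [hk, hl]
  apply main
  obtain ⟨i, hi⟩ := Finsupp.ne_iff.1 h
  refine ⟨i, ?_, hi⟩
  have : i ∈ k.support ∪ l.support := by
    rw [Finset.mem_union, Finsupp.mem_support_iff, Finsupp.mem_support_iff]
    by_contra hc
    push Not at hc
    exact hi (hc.1.trans hc.2.symm)
  exact Finset.mem_range.1 (hN this)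

theorem final :
    ¬ (∀ a : ℕ → ℝ, StrictMono a → 1 < a 0 →
      (∀ k l : ℕ →₀ ℕ, k ≠ l →
        1 ≤ |k.prod (fun i e => a i ^ e) - l.prod (fun i e => a i ^ e)|) →
      ∀ x : ℝ, Set.ncard {i : ℕ | a i ≤ x} ≤ Nat.primeCounting ⌊x⌋₊) := by
  intro H
  have h := H aa aa_mono (aa_gt_one 0) sep (69/10)
  have hs : {i : ℕ | aa i ≤ (69/10 : ℝ)} = ((Finset.range 4 : Finset ℕ) : Set ℕ) := by
    ext i
    simp only [Set.mem_ofPred_eq, Finset.coe_range, Set.mem_Iio]
    constructor
    · intro hi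
      by_contra hc
      push Not at hc
      obtain ⟨n, rfl⟩ : ∃ n, i = n + 4 := ⟨i - 4, by omega⟩
      have := tail_big n
      linarith
    · intro hi
      have := aa_le3 i hi
      have := al_bd
      linarith
  rw [hs, Set.ncard_coe_finset] at h
  have hf : ⌊(69/10 : ℝ)⌋₊ = 6 := by
    rw [Nat.floor_eq_iff (by norm_num)]
    constructor <;> norm_num
  rw [hf] at h
  have : Nat.primeCounting 6 = 3 := by decide
  rw [this] at h
  simp at h

end Pool.Agent.Beurl
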